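import Pool.Agent.N190.Opp.Main

/-!
# The Lefschetz standard conjecture and correspondences in general position
-/

open CategoryTheory AlgebraicGeometry Finset Polynomial

universe u v

namespace Pool.Agent.N190.Opp

open Pool.Agent.H914 VarClass Obj WeilCohomology

variable {k : Type u} [Field k] {𝒱 : VarClass k} {ops : CycleOps 𝒱}
  {W : WeilCohomology.{u, v} ops} {X Y : 𝒱.Obj}

lemma lefschetzB_of_injC {D : X.Cycles} (hD : X.IsCyc 1 D) (hHL : HardLefschetz W X D)
    (h : ∀ c, 1 ≤ c → c ≤ X.dim → InjC W X c) : LefschetzB W X D := by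
  apply lefschetzB_of_inj hD hHL
  intro c hc
  rcases Nat.eq_zero_or_pos c with rfl | hc0
  · exact ⟨LinearMap.id, KOp.cast (KOp.id X) (by simp), fun a _ h0 => h0⟩
  · exact h c hc0 hc

/-- **General position implies the conjecture.** -/
theorem lefschetzB_of_generalPosition {D : X.Cycles} {E : Y.Cycles} (hdim : X.dim = Y.dim)
    (hD : X.IsCyc 1 D) (hHLX : HardLefschetz W X D) (hE : Y.IsCyc 1 E)
    (hHLY : HardLefschetz W Y E)
    (h : ∀ c, 1 ≤ c → c ≤ X.dim → ∃ γ ∈ mixedCycles W (X.prod Y), GeneralPosition W X Y γ c) :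
    LefschetzB W X D ∧ LefschetzB W Y E := by
  have h1 : ∀ c, 1 ≤ c → c ≤ X.dim → ∃ u ∈ KMix W X Y, GP W X Y u c := by
    intro c hc1 hc2
    obtain ⟨γ, hγ, hgp⟩ := h c hc1 hc2
    rw [gp_iff] at hgp
    exact ⟨W.corr γ, corr_mix hγ, ⟨hgp.1, hgp.2⟩⟩
  have h2 := lev_of_gp hdim hD hHLX hE hHLY h1
  exact ⟨lefschetzB_of_injC hD hHLX fun c hc1 hc2 => (h2 c hc1 hc2).injX hdim hE hHLY hc2,
    lefschetzB_of_injC hE hHLY fun c hc1 hc2 =>
      (h2 c hc1 (by omega)).injY hdim hD hHLX (by omega)⟩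

/-- **The conjecture gives a cycle in general position.** -/
theorem exists_generalPosition {D : X.Cycles} (hD : X.IsCyc 1 D) (hHL : HardLefschetz W X D)
    (hB : LefschetzB W X D) :
    ∃ z : ℕ → (X.prod X).Cycles, (∀ p, (X.prod X).IsCyc p (z p)) ∧
      ∀ c, 1 ≤ c → c ≤ X.dim →
        GeneralPosition W X X (∑ p ∈ range X.dim, W.cl (X.prod X) (z p)) c := by
  obtain ⟨Φ, hΦ, hLam⟩ := lefschetzB_iff_rop.1 hB
  have hLh : IsHom (W.gr X) 2 (LinearMap.mulLeft W.K (W.cl X D)) := by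
    simpa using rop_opAlg.hom (rop_mulLeft (W := W) hD)
  have hproj := rop_opAlg.proj_mem (W.isInternal X) W_hbd (rop_mulLeft hD) hHL hΦ hLam
  -- the components
  have hex : ∀ p : ℕ, ∃ z, (X.prod X).IsCyc p z ∧ (p < X.dim → W.corr (W.cl _ z) =
      Φ ^ (X.dim - p) * proj (W.isInternal X) (X.dim + (X.dim - p))) := by
    intro p
    by_cases hp : p < X.dim
    · obtain ⟨Y, ⟨q, hq, z, hz, hY⟩ | ⟨hd, _⟩, hYW⟩ :=
        rop_opAlg.mul (rop_opAlg.pow hΦ (X.dim - p)) (hproj (X.dim + (X.dim - p)))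
      · obtain rfl : q = p := by omega
        exact ⟨z, hz, fun _ => by rw [← hY, hYW]⟩
      · omega
    · exact ⟨0, SmVar.IsCyc.zero _ _, fun h => absurd h hp⟩
  choose z hz hzW using hex
  refine ⟨z, hz, fun c hc1 hc2 => ?_⟩
  set γ := ∑ p ∈ range X.dim, W.cl (X.prod X) (z p) with hγ
  have hcorr : W.corr γ = ∑ p ∈ range X.dim,
      Φ ^ (X.dim - p) * proj (W.isInternal X) (X.dim + (X.dim - p)) := by
    have h1 : ∀ s : Finset ℕ, W.corr (∑ p ∈ s, W.cl (X.prod X) (z p)) =
        ∑ p ∈ s, W.corr (W.cl (X.prod X) (z p)) := by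
      intro s
      classical
      induction s using Finset.induction_on with
      | empty => rw [Finset.sum_empty, Finset.sum_empty, corr_zero]
      | insert a s ha ih => rw [Finset.sum_insert ha, Finset.sum_insert ha, corr_add, ih]
    rw [hγ, h1]
    exact Finset.sum_congr rfl (fun p hp => hzW p (Finset.mem_range.1 hp))
  have hΦmem : ∀ e ≤ X.dim, ∀ x ∈ W.gr X (X.dim + e), (Φ ^ e) x ∈ W.gr X (X.dim - e) := by
    intro e he x hx
    have h1 := (rop_opAlg (W := W) (X := X)).hom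
      ((rop_opAlg (W := W) (X := X)).pow hΦ e) ((X.dim + e : ℕ) : ℤ) x
      (by rw [grZ_natCast]; exact hx)
    rwa [show ((X.dim + e : ℕ) : ℤ) + 2 * (e * -1 : ℤ) = ((X.dim - e : ℕ) : ℤ) by omega,
      grZ_natCast] at h1
  have hinv : ∀ e ≤ X.dim, ∀ a ∈ W.gr X (X.dim - e),
      (Φ ^ e) ((LinearMap.mulLeft W.K (W.cl X D) ^ e) a) = a :=
    fun e he a ha => lam_pow_L_pow hLh W_hbd hHL hLam he ha
  have hpr : ∀ x, ∀ e, 1 ≤ e → e ≤ X.dim →
      proj (W.isInternal X) (X.dim - e) (W.corr γ x) =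
        (Φ ^ e) (proj (W.isInternal X) (X.dim + e) x) := by
    intro x e he1 he2
    rw [hcorr, LinearMap.sum_apply, map_sum, Finset.sum_eq_single (X.dim - e)]
    · rw [show X.dim - (X.dim - e) = e by omega, Module.End.mul_apply,
        proj_same _ (hΦmem e he2 _ (proj_mem _ _ x))]
    · intro p hp hpe
      have hp' := Finset.mem_range.1 hp
      rw [Module.End.mul_apply, proj_ne _ (hΦmem (X.dim - p) (by omega) _ (proj_mem _ _ x))
        (by omega)]
    · intro h
      exact absurd (Finset.mem_range.2 (by omega)) h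
  rw [gp_iff]
  constructor
  · intro x hx h0
    apply eq_zero_of_proj
    intro j
    by_cases hj : j < X.dim + c
    · exact mem_upper.1 hx j hj
    · by_cases hj2 : 2 * X.dim < j
      · have h2 : proj (W.isInternal X) j x ∈ W.gr X j := proj_mem _ _ x
        rw [W.gr_eq_bot X j hj2] at h2
        exact (Submodule.mem_bot _).1 h2
      · obtain ⟨e, rfl⟩ : ∃ e, j = X.dim + e := ⟨j - X.dim, by omega⟩
        have h1 := mem_upper.1 h0 (X.dim - e) (by omega)
        rw [hpr x e (by omega) (by omega)] at h1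
        obtain ⟨a, ha, h2⟩ := Lpow_surj hHL (c := e) (by omega)
          (proj_mem (W.isInternal X) (X.dim + e) x)
        rw [← h2, hinv e (by omega) a ha] at h1
        rw [← h2, h1, map_zero]
  · intro y
    refine ⟨∑ e ∈ Finset.Icc c X.dim, (LinearMap.mulLeft W.K (W.cl X D) ^ e)
      (proj (W.isInternal X) (X.dim - e) y), ?_, ?_⟩
    · apply Submodule.sum_mem
      intro e he
      have he' := Finset.mem_Icc.1 he
      exact gr_le_upper (by omega) (Lpow_mem hD (j := X.dim + e) (by omega) (proj_mem _ _ y))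
    · rw [mem_upper]
      intro j hj
      obtain ⟨e, he1, he2, rfl⟩ : ∃ e, c ≤ e ∧ e ≤ X.dim ∧ j = X.dim - e :=
        ⟨X.dim - j, by omega, by omega, by omega⟩
      rw [map_sub, hpr _ e (by omega) he2, map_sum, Finset.sum_eq_single e]
      · rw [proj_same _ (Lpow_mem hD (j := X.dim + e) (by omega) (proj_mem _ _ y)),
          hinv e he2 _ (proj_mem _ _ y), sub_self]
      · intro e' he' hne
        have := Finset.mem_Icc.1 he'
        exact proj_ne _ (Lpow_mem hD (j := X.dim + e') (by omega) (proj_mem _ _ y)) (by omega)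
      · intro h
        exact absurd (Finset.mem_Icc.2 ⟨he1, he2⟩) h

/-- The summary. -/
theorem top (W : WeilCohomology.{u, v} ops) (X : 𝒱.Obj) (D : X.Cycles) (hD : X.IsCyc 1 D)
    (hHL : HardLefschetz W X D) :
    (LefschetzB W X D ↔ HasCycleInGeneralPosition W X) ∧
    ∀ (Y : 𝒱.Obj) (E : Y.Cycles), Y.IsCyc 1 E → HardLefschetz W Y E → Opposed W X Y →
      LefschetzB W X D ∧ LefschetzB W Y E := by
  refine ⟨⟨exists_generalPosition hD hHL, ?_⟩, fun Y E hE hHLY h =>
    lefschetzB_of_generalPosition h.1 hD hHL hE hHLY h.2⟩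
  rintro ⟨z, hz, h⟩
  refine (lefschetzB_of_generalPosition rfl hD hHL hD hHL fun c hc1 hc2 => ⟨_, ?_, h c hc1 hc2⟩).1
  apply Submodule.sum_mem
  intro p _
  exact Submodule.mem_iSup_of_mem p (Submodule.subset_span ⟨p, rfl, z p, hz p, rfl⟩)

end Pool.Agent.N190.Opp
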