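import Pool.Agent.H914R2.KDefs2

/-!
# Correspondences of mixed codimension and the filtrations by the degree: definitions
-/

open CategoryTheory AlgebraicGeometry

universe u v

namespace Pool.Agent.N190.Opp

open Pool.Agent.H914 VarClass Obj WeilCohomology

variable {k : Type u} [Field k] {𝒱 : VarClass k} {ops : CycleOps 𝒱}

/-- The subspace `H^(≥ i)(X)` of the classes all of whose components have degree at least `i`. -/
def upper (W : WeilCohomology.{u, v} ops) (X : 𝒱.Obj) (i : ℕ) : Submodule W.K (W.H X) :=
  ⨆ j : {j : ℕ // i ≤ j}, W.gr X j

/-- The `K`-linear combinations of classes of algebraic cycles of `X` of all codimensions, where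
`K` is the coefficient field. -/
def mixedCycles (W : WeilCohomology.{u, v} ops) (X : 𝒱.Obj) : Submodule W.K (W.H X) :=
  ⨆ p : ℕ, spanCycles W X p

/-- The linear map `u` maps the subspace `F` bijectively to the quotient by the subspace `G`. -/
def Transversal {K V V' : Type*} [Field K] [AddCommGroup V] [Module K V] [AddCommGroup V']
    [Module K V'] (u : V →ₗ[K] V') (F : Submodule K V) (G : Submodule K V') : Prop :=
  Function.Bijective fun x : F => G.mkQ (u x)

/-- The class `γ` on `X × Y` (of mixed degree) puts the degree filtrations of `X` and `Y` in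
general position at level `c`: the operator `γ_* : H(X) → H(Y)` followed by the quotient map
induces a bijection from `H^(≥ dim X + c)(X)` to `H(Y) / H^(≥ dim Y - c + 1)(Y)`. -/
def GeneralPosition (W : WeilCohomology.{u, v} ops) (X Y : 𝒱.Obj) (γ : W.H (X.prod Y))
    (c : ℕ) : Prop :=
  Transversal (W.corr γ) (upper W X (X.dim + c)) (upper W Y (Y.dim - c + 1))

/-- There is a sequence of cycles `z p` of codimension `p` on `X × X`, with rational coefficients,
the sum of the classes of which is in general position at all levels `c = 1, …, dim X`. -/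
def HasCycleInGeneralPosition (W : WeilCohomology.{u, v} ops) (X : 𝒱.Obj) : Prop :=
  ∃ z : ℕ → (X.prod X).Cycles, (∀ p, (X.prod X).IsCyc p (z p)) ∧
    ∀ c, 1 ≤ c → c ≤ X.dim →
      GeneralPosition W X X (∑ p ∈ Finset.range X.dim, W.cl (X.prod X) (z p)) c

/-- `X` and `Y` have the same dimension, and at each level `c = 1, …, dim X` some combination, with
coefficients in the coefficient field, of cycles of all codimensions on `X × Y` is in general
position. -/
def Opposed (W : WeilCohomology.{u, v} ops) (X Y : 𝒱.Obj) : Prop :=
  X.dim = Y.dim ∧ ∀ c, 1 ≤ c → c ≤ X.dim →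
    ∃ γ ∈ mixedCycles W (X.prod Y), GeneralPosition W X Y γ c

end Pool.Agent.N190.Opp
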