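import Pool.Agent.N190.Opp.Step

/-!
# General position implies the Lefschetz standard conjecture
-/

open CategoryTheory AlgebraicGeometry Finset Polynomial

universe u v

namespace Pool.Agent.N190.Opp

open Pool.Agent.H914 VarClass Obj WeilCohomology Pool.Agent.W498.Dom

variable {k : Type u} [Field k] {𝒱 : VarClass k} {ops : CycleOps 𝒱}
  {W : WeilCohomology.{u, v} ops} {X Y Z : 𝒱.Obj}

/-- General position in elementary terms. -/
lemma gp_iff {γ : W.H (X.prod Y)} {c : ℕ} :
    GeneralPosition W X Y γ c ↔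
      (∀ x ∈ upper W X (X.dim + c), W.corr γ x ∈ upper W Y (Y.dim - c + 1) → x = 0) ∧
      ∀ y, ∃ x ∈ upper W X (X.dim + c), y - W.corr γ x ∈ upper W Y (Y.dim - c + 1) := by
  constructor
  · rintro ⟨h1, h2⟩
    refine ⟨fun x hx h0 => ?_, fun y => ?_⟩
    · have := @h1 ⟨x, hx⟩ 0 (by
        beta_reduce
        rw [Submodule.coe_zero, map_zero, map_zero, Submodule.mkQ_apply,
          Submodule.Quotient.mk_eq_zero]
        exact h0)
      exact congrArg Subtype.val this
    · obtain ⟨⟨x, hx⟩, h⟩ := h2 ((upper W Y (Y.dim - c + 1)).mkQ y)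
      refine ⟨x, hx, ?_⟩
      beta_reduce at h
      rw [← Submodule.Quotient.mk_eq_zero, ← Submodule.mkQ_apply, map_sub, h, sub_self]
  · rintro ⟨h1, h2⟩
    unfold GeneralPosition Transversal
    constructor
    · rintro ⟨x, hx⟩ ⟨x', hx'⟩ h
      beta_reduce at h
      apply Subtype.ext
      have : x - x' = 0 := by
        apply h1 _ (Submodule.sub_mem _ hx hx')
        rw [← Submodule.Quotient.mk_eq_zero, ← Submodule.mkQ_apply, map_sub, map_sub, h, sub_self]
      exact sub_eq_zero.1 this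
    · intro y
      obtain ⟨y, rfl⟩ := Submodule.mkQ_surjective _ y
      obtain ⟨x, hx, h⟩ := h2 y
      refine ⟨⟨x, hx⟩, ?_⟩
      beta_reduce
      rw [← Submodule.Quotient.mk_eq_zero, ← Submodule.mkQ_apply, map_sub, sub_eq_zero] at h
      exact h.symm

/-- Operators in general position at level `c`. -/
structure GP (W : WeilCohomology.{u, v} ops) (X Y : 𝒱.Obj) (u : W.H X →ₗ[W.K] W.H Y)
    (c : ℕ) : Prop where
  inj : ∀ x ∈ upper W X (X.dim + c), u x ∈ upper W Y (Y.dim - c + 1) → x = 0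
  surj : ∀ y, ∃ x ∈ upper W X (X.dim + c), y - u x ∈ upper W Y (Y.dim - c + 1)

lemma exists_avoid (K : Type*) [Field K] [CharZero K] (p q : K[X]) (hp : p ≠ 0) (hq : q ≠ 0) :
    ∃ s : K, s ≠ 0 ∧ p.eval s ≠ 0 ∧ q.eval s⁻¹ ≠ 0 := by
  classical
  obtain ⟨s, hs⟩ := Infinite.exists_notMem_finset
    (insert (0 : K) (p.roots.toFinset ∪ q.roots.toFinset.image (fun x => x⁻¹)))
  simp only [Finset.mem_insert, Finset.mem_union, Finset.mem_image, Multiset.mem_toFinset,
    not_or, not_exists, not_and] at hs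
  refine ⟨s, hs.1, fun h => hs.2.1 ((mem_roots hp).2 h), fun h => ?_⟩
  exact hs.2.2 s⁻¹ ((mem_roots hq).2 h) (inv_inv s)

/-- The induction step. -/
theorem step {D : X.Cycles} {E : Y.Cycles} (hdim : X.dim = Y.dim) (hD : X.IsCyc 1 D)
    (hHLX : HardLefschetz W X D) (hE : Y.IsCyc 1 E) (hHLY : HardLefschetz W Y E) {c : ℕ}
    (hc : c ≤ X.dim) (hlev : ∀ e, c < e → e ≤ X.dim → Lev W X Y e)
    {u₀ : W.H X →ₗ[W.K] W.H Y} (hu₀ : u₀ ∈ KMix W X Y) (hgp : GP W X Y u₀ c) :
    Lev W X Y c := by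
  classical
  have hPX := all_proj hD hHLX (c := c) (fun e h1 h2 => (hlev e h1 h2).injX hdim hE hHLY h2)
  have hPY := all_proj hE hHLY (c := c) (fun e h1 h2 =>
    (hlev e h1 (by omega)).injY hdim hD hHLX (by omega))
  -- the upper isomorphisms
  set s : Finset ℕ := Finset.Ioc c X.dim with hs
  have hsm : ∀ e, e ∈ s ↔ c < e ∧ e ≤ X.dim := fun e => by rw [hs, Finset.mem_Ioc]
  have hS0 : ∀ e : ℕ, ∃ S ∈ KOp W X Y (-(e : ℤ)), e ∈ s →
      (∀ a ∈ W.gr X (X.dim + e), S a = 0 → a = 0) ∧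
      ∀ b ∈ W.gr Y (Y.dim - e), ∃ a ∈ W.gr X (X.dim + e), S a = b := by
    intro e
    by_cases he : e ∈ s
    · obtain ⟨S, hS, h1, h2⟩ := hlev e ((hsm e).1 he).1 ((hsm e).1 he).2
      exact ⟨S, hS, fun _ => ⟨h1, h2⟩⟩
    · exact ⟨0, Submodule.zero_mem _, fun h => absurd h he⟩
  choose S hSk hS using hS0
  have hT0 : ∀ e : ℕ, ∃ T ∈ KOp W Y X (-(e : ℤ)), e ∈ s →
      ∀ b ∈ W.gr Y (Y.dim + e), T b = 0 → b = 0 := by
    intro e
    by_cases he : e ∈ s
    · obtain ⟨T, hT, h1⟩ := exists_adj hdim ((hsm e).1 he).2 (hSk e) (hS e he).2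
      exact ⟨T, hT, fun _ => h1⟩
    · exact ⟨0, Submodule.zero_mem _, fun h => absurd h he⟩
  choose T hTk hT using hT0
  -- the operator `R`
  set R : W.H X →ₗ[W.K] W.H Y := ∑ e ∈ s, S e ∘ₗ proj (W.isInternal X) (X.dim + e) with hR
  have hSmem : ∀ e ∈ s, ∀ x ∈ W.gr X (X.dim + e), S e x ∈ W.gr Y (Y.dim - e) := by
    intro e he x hx
    exact kop_mem (hSk e) hx (by have := (hsm e).1 he; omega)
  have hRk : R ∈ KMix W X Y := by
    apply Submodule.sum_mem
    intro e he
    exact KMix.comp (KOp.mix (hSk e)) (KOp.mix (hPX _ (Or.inl (by have := (hsm e).1 he; omega))))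
  have hRproj : ∀ x, ∀ e ∈ s, proj (W.isInternal Y) (Y.dim - e) (R x) =
      S e (proj (W.isInternal X) (X.dim + e) x) := by
    intro x e he
    refine block_proj (a := fun e => X.dim + e) (b := fun e => Y.dim - e) ?_ hSmem x he
    intro i hi j hj hij
    have h1 := (hsm i).1 hi
    have h2 := (hsm j).1 hj
    have h3 : Y.dim - i = Y.dim - j := hij
    omega
  have hRinj : ∀ x ∈ upper W X (X.dim + c + 1), R x = 0 → x = 0 := by
    intro x hx h0
    apply eq_zero_of_proj
    intro j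
    by_cases hj : j < X.dim + c + 1
    · exact mem_upper.1 hx j hj
    · by_cases hj2 : j ≤ 2 * X.dim
      · obtain ⟨e, rfl⟩ : ∃ e, j = X.dim + e := ⟨j - X.dim, by omega⟩
        have he : e ∈ s := (hsm e).2 ⟨by omega, by omega⟩
        apply (hS e he).1 _ (proj_mem _ _ x)
        rw [← hRproj x e he, h0, map_zero]
      · have h2 : proj (W.isInternal X) j x ∈ W.gr X j := proj_mem _ _ x
        rw [W.gr_eq_bot X j (by omega)] at h2
        exact (Submodule.mem_bot _).1 h2
  -- the perturbation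
  obtain ⟨pa, hpa, ha⟩ := PFam.generic_inj (E := upper W X (X.dim + c + 1)) (F := W.H Y)
    (A := fun t => t • ((plow W Y (Y.dim - c) ∘ₗ u₀) ∘ₗ (upper W X (X.dim + c + 1)).subtype) +
      R ∘ₗ (upper W X (X.dim + c + 1)).subtype)
    (by
      have h1 := (PFam.const ((plow W Y (Y.dim - c) ∘ₗ u₀) ∘ₗ
        (upper W X (X.dim + c + 1)).subtype)).smul (Polynomial.X : W.K[X])
      have h2 := h1.add (PFam.const (R ∘ₗ (upper W X (X.dim + c + 1)).subtype))
      simpa using h2)
    (by
      rw [zero_smul, zero_add, ← LinearMap.ker_eq_bot, LinearMap.ker_eq_bot']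
      rintro ⟨x, hx⟩ h0
      exact Subtype.ext (hRinj x hx h0))
  obtain ⟨pb, hpb, hb⟩ := PFam.generic_inj (E := upper W X (X.dim + c))
    (F := W.H Y ⧸ upper W Y (Y.dim - c + 1))
    (A := fun t => (upper W Y (Y.dim - c + 1)).mkQ ∘ₗ u₀ ∘ₗ (upper W X (X.dim + c)).subtype +
      t • ((upper W Y (Y.dim - c + 1)).mkQ ∘ₗ R ∘ₗ (upper W X (X.dim + c)).subtype))
    (by
      have h1 := (PFam.const ((upper W Y (Y.dim - c + 1)).mkQ ∘ₗ R ∘ₗ
        (upper W X (X.dim + c)).subtype)).smul (Polynomial.X : W.K[X])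
      have h2 := (PFam.const ((upper W Y (Y.dim - c + 1)).mkQ ∘ₗ u₀ ∘ₗ
        (upper W X (X.dim + c)).subtype)).add h1
      simpa using h2)
    (by
      rw [zero_smul, add_zero, ← LinearMap.ker_eq_bot, LinearMap.ker_eq_bot']
      rintro ⟨x, hx⟩ h0
      apply Subtype.ext
      apply hgp.inj x hx
      rw [← Submodule.Quotient.mk_eq_zero]
      exact h0)
  obtain ⟨t, ht0, hta, htb⟩ := exists_avoid W.K pa pb hpa hpb
  set u : W.H X →ₗ[W.K] W.H Y := u₀ + t⁻¹ • R with hu
  have huk : u ∈ KMix W X Y := Submodule.add_mem _ hu₀ (Submodule.smul_mem _ _ hRk)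
  have hRlow : ∀ x, plow W Y (Y.dim - c) (R x) = R x := by
    intro x
    apply eq_of_proj
    intro j
    rw [proj_plow]
    split_ifs with hj
    · rfl
    · symm
      apply block_proj' (b := fun e => Y.dim - e) hSmem
      intro e he
      have := (hsm e).1 he
      omega
  -- condition (a)
  have hA : ∀ x ∈ upper W X (X.dim + c + 1), plow W Y (Y.dim - c) (u x) = 0 → x = 0 := by
    intro x hx h0
    have hinj := ha t hta
    have h1 := @hinj ⟨x, hx⟩ 0 (by
      rw [map_zero]
      change t • (plow W Y (Y.dim - c) (u₀ x)) + R x = 0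
      rw [hu, LinearMap.add_apply, LinearMap.smul_apply, map_add, map_smul, hRlow] at h0
      have h2 := congrArg (fun y => t • y) h0
      simp only [smul_add, smul_zero] at h2
      rwa [smul_inv_smul₀ ht0] at h2)
    exact congrArg Subtype.val h1
  -- condition (b)
  have hB : ∀ x ∈ upper W X (X.dim + c), u x ∈ upper W Y (Y.dim - c + 1) → x = 0 := by
    intro x hx h0
    have hinj := hb t⁻¹ htb
    have h1 := @hinj ⟨x, hx⟩ 0 (by
      rw [map_zero]
      change (upper W Y (Y.dim - c + 1)).mkQ (u₀ x) +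
        t⁻¹ • (upper W Y (Y.dim - c + 1)).mkQ (R x) = 0
      rw [← map_smul, ← map_add, Submodule.mkQ_apply, Submodule.Quotient.mk_eq_zero]
      exact h0)
    exact congrArg Subtype.val h1
  have hB' : ∀ y, ∃ x ∈ upper W X (X.dim + c), y - u x ∈ upper W Y (Y.dim - c + 1) := by
    have hrk : Module.finrank W.K (upper W X (X.dim + c)) =
        Module.finrank W.K (W.H Y ⧸ upper W Y (Y.dim - c + 1)) := by
      apply LinearEquiv.finrank_eq
      apply LinearEquiv.ofBijective ((upper W Y (Y.dim - c + 1)).mkQ ∘ₗ u₀ ∘ₗ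
        (upper W X (X.dim + c)).subtype)
      constructor
      · rw [← LinearMap.ker_eq_bot, LinearMap.ker_eq_bot']
        rintro ⟨x, hx⟩ h0
        apply Subtype.ext
        apply hgp.inj x hx
        rw [← Submodule.Quotient.mk_eq_zero]
        exact h0
      · intro y
        obtain ⟨y, rfl⟩ := Submodule.mkQ_surjective _ y
        obtain ⟨x, hx, h⟩ := hgp.surj y
        refine ⟨⟨x, hx⟩, ?_⟩
        rw [← Submodule.Quotient.mk_eq_zero, ← Submodule.mkQ_apply, map_sub, sub_eq_zero] at h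
        exact h.symm
    have hinj : Function.Injective ((upper W Y (Y.dim - c + 1)).mkQ ∘ₗ u ∘ₗ
        (upper W X (X.dim + c)).subtype) := by
      rw [← LinearMap.ker_eq_bot, LinearMap.ker_eq_bot']
      rintro ⟨x, hx⟩ h0
      apply Subtype.ext
      apply hB x hx
      rw [← Submodule.Quotient.mk_eq_zero]
      exact h0
    have hsurj := (LinearMap.injective_iff_surjective_of_finrank_eq_finrank hrk).1 hinj
    intro y
    obtain ⟨⟨x, hx⟩, h⟩ := hsurj ((upper W Y (Y.dim - c + 1)).mkQ y)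
    refine ⟨x, hx, ?_⟩
    rw [← Submodule.Quotient.mk_eq_zero, ← Submodule.mkQ_apply, map_sub, sub_eq_zero]
    exact h.symm
  -- the algebraic operator `V` in the other direction
  set T' : ℕ → W.H Y →ₗ[W.K] W.H X := fun e =>
    (LinearMap.mulLeft W.K (W.cl X D) ^ e : Module.End W.K (W.H X)) ∘ₗ T e ∘ₗ
      (LinearMap.mulLeft W.K (W.cl Y E) ^ e : Module.End W.K (W.H Y)) with hT'
  have hT'mem : ∀ e ∈ s, ∀ y ∈ W.gr Y (Y.dim - e), T' e y ∈ W.gr X (X.dim + e) := by
    intro e he y hy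
    have h1 := (hsm e).1 he
    have h2 : (LinearMap.mulLeft W.K (W.cl Y E) ^ e : Module.End W.K (W.H Y)) y ∈
        W.gr Y (Y.dim + e) := Lpow_mem hE (by omega) hy
    exact Lpow_mem hD (i := X.dim - e) (by omega) (kop_mem (hTk e) h2 (by omega))
  have hT'inj : ∀ e ∈ s, ∀ y ∈ W.gr Y (Y.dim - e), T' e y = 0 → y = 0 := by
    intro e he y hy h0
    have h1 := (hsm e).1 he
    have h2 : (LinearMap.mulLeft W.K (W.cl Y E) ^ e : Module.End W.K (W.H Y)) y ∈
        W.gr Y (Y.dim + e) := Lpow_mem hE (by omega) hy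
    have h3 := Lpow_inj hHLX h1.2 (kop_mem (hTk e) h2 (by omega)) h0
    exact Lpow_inj hHLY (by omega) hy (hT e he _ h2 h3)
  set V : W.H Y →ₗ[W.K] W.H X := ∑ e ∈ s, T' e ∘ₗ proj (W.isInternal Y) (Y.dim - e) with hV
  have hVk : V ∈ KMix W Y X := by
    apply Submodule.sum_mem
    intro e he
    have h1 := (hsm e).1 he
    exact KMix.comp (KMix.comp (KOp.mix (kop_Lpow hD e)) (KMix.comp (KOp.mix (hTk e))
      (KOp.mix (kop_Lpow hE e)))) (KOp.mix (hPY _ (Or.inr (by omega))))
  have hVproj : ∀ y, ∀ e ∈ s, proj (W.isInternal X) (X.dim + e) (V y) =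
      T' e (proj (W.isInternal Y) (Y.dim - e) y) := by
    intro y e he
    refine block_proj (a := fun e => Y.dim - e) (b := fun e => X.dim + e) ?_ hT'mem y he
    intro i hi j hj hij
    have h3 : X.dim + i = X.dim + j := hij
    omega
  have hVup : ∀ y, V y ∈ upper W X (X.dim + c + 1) := by
    intro y
    rw [mem_upper]
    intro j hj
    apply block_proj' (b := fun e => X.dim + e) hT'mem
    intro e he
    have := (hsm e).1 he
    omega
  have hVinj : ∀ y, plow W Y (Y.dim - c) y = y → V y = 0 → y = 0 := by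
    intro y hy h0
    apply eq_zero_of_proj
    intro j
    by_cases hj : j < Y.dim - c
    · obtain ⟨e, he, rfl⟩ : ∃ e, e ≤ Y.dim ∧ j = Y.dim - e := ⟨Y.dim - j, by omega, by omega⟩
      have he' : e ∈ s := (hsm e).2 ⟨by omega, by omega⟩
      apply hT'inj e he' _ (proj_mem _ _ y)
      rw [← hVproj y e he', h0, map_zero]
    · rw [← hy, proj_plow, if_neg hj]
  -- the endomorphism `M` and its inverse
  set M : Module.End W.K (W.H Y) := plow W Y (Y.dim - c) ∘ₗ u ∘ₗ V with hM
  have hQk : plow W Y (Y.dim - c) ∈ KMix W Y Y := by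
    apply KOp.mix (d := 0)
    apply scal_mem
    intro j hj
    apply hPY
    by_contra h
    exact hj (if_neg (by omega))
  have hMk : M ∈ KMix W Y Y := KMix.comp hQk (KMix.comp huk hVk)
  obtain ⟨q, hq⟩ := exists_inv_on (E := M) (S := LinearMap.range (plow W Y (Y.dim - c)))
    (fun x _ => ⟨_, rfl⟩)
    (by
      rintro _ ⟨y, rfl⟩ h0
      apply hVinj _ (plow_plow _ y)
      exact hA _ (hVup _) h0)
  set G : W.H Y →ₗ[W.K] W.H X := V ∘ₗ aeval M q ∘ₗ plow W Y (Y.dim - c) with hG
  have hGk : G ∈ KMix W Y X := KMix.comp hVk (KMix.comp (KMix.aeval hMk q) hQk)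
  have hGup : ∀ y, G y ∈ upper W X (X.dim + c + 1) := fun y => hVup _
  have hQuG : ∀ y, plow W Y (Y.dim - c) (u (G y)) = plow W Y (Y.dim - c) y := by
    intro y
    have h1 : plow W Y (Y.dim - c) (u (G y)) = (M * aeval M q) (plow W Y (Y.dim - c) y) := rfl
    have h2 : M * aeval M q = aeval M q * M := by
      have h3 : Commute (aeval M (Polynomial.X : W.K[X])) (aeval M q) :=
        (Commute.all (Polynomial.X : W.K[X]) q).map (aeval M)
      rw [aeval_X] at h3
      exact h3
    rw [h1, h2, Module.End.mul_apply]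
    exact hq _ ⟨y, rfl⟩
  -- the corrected operator
  set w : W.H X →ₗ[W.K] W.H Y := u - u ∘ₗ G ∘ₗ u with hw
  have hwk : w ∈ KMix W X Y := Submodule.sub_mem _ huk (KMix.comp huk (KMix.comp hGk huk))
  have hwx : ∀ x, w x = u (x - G (u x)) := by
    intro x
    rw [hw, LinearMap.sub_apply, LinearMap.comp_apply, LinearMap.comp_apply, map_sub]
  have hwlow : ∀ x, plow W Y (Y.dim - c) (w x) = 0 := by
    intro x
    rw [hwx, map_sub, map_sub, hQuG, sub_self]
  obtain ⟨v, hv, hvw⟩ := KMix.exists_component hwk (-(c : ℤ))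
  have hvw' : ∀ x ∈ W.gr X (X.dim + c), v x = proj (W.isInternal Y) (Y.dim - c) (w x) :=
    fun x hx => hvw _ _ (by omega) x hx
  have hup1 : ∀ y, plow W Y (Y.dim - c) y = 0 → proj (W.isInternal Y) (Y.dim - c) y = 0 →
      y ∈ upper W Y (Y.dim - c + 1) := by
    intro y h1 h2
    rw [mem_upper]
    intro j hj
    by_cases hj' : j = Y.dim - c
    · rw [hj', h2]
    · exact mem_upper.1 (plow_eq_zero.1 h1) j (by omega)
  refine ⟨v, hv, ?_, ?_⟩
  · intro x hx h0
    rw [hvw' x hx] at h0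
    have h1 := hup1 _ (hwlow x) h0
    rw [hwx] at h1
    have h2 := hB _ (Submodule.sub_mem _ (gr_le_upper le_rfl hx)
      (upper_mono (by omega) (hGup (u x)))) h1
    have h3 : x = G (u x) := sub_eq_zero.1 h2
    have h4 : x ∈ upper W X (X.dim + c + 1) := by rw [h3]; exact hGup _
    have h5 := mem_upper.1 h4 (X.dim + c) (by omega)
    rwa [proj_same _ hx] at h5
  · intro y hy
    obtain ⟨x, hx, h⟩ := hB' y
    -- the decomposition of `x`
    have hxx : x = proj (W.isInternal X) (X.dim + c) x + pup W X (X.dim + c + 1) x := by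
      apply eq_of_proj
      intro j
      rw [map_add, proj_pup]
      by_cases h1 : j = X.dim + c
      · subst h1
        rw [proj_same _ (proj_mem _ _ x), if_neg (by omega), add_zero]
      · rw [proj_ne _ (proj_mem _ (X.dim + c) x) (Ne.symm h1), zero_add]
        split_ifs with h2
        · rfl
        · exact mem_upper.1 hx j (by omega)
    set x0 := proj (W.isInternal X) (X.dim + c) x with hx0
    set x1 := pup W X (X.dim + c + 1) x with hx1
    have hx0m : x0 ∈ W.gr X (X.dim + c) := proj_mem _ _ x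
    have hx1m : x1 ∈ upper W X (X.dim + c + 1) := pup_mem _ x
    have hQy : plow W Y (Y.dim - c) y = 0 := plow_gr le_rfl hy
    have hQux : plow W Y (Y.dim - c) (u x) = 0 := by
      have h1 : plow W Y (Y.dim - c) (y - u x) = 0 :=
        plow_eq_zero.2 (upper_mono (Nat.le_succ _) h)
      rw [map_sub, hQy, zero_sub, neg_eq_zero] at h1
      exact h1
    have hG1 : G (u x0) = -x1 := by
      have h1 : G (u x0) + x1 = 0 := by
        apply hA _ (Submodule.add_mem _ (hGup _) hx1m)
        rw [map_add, map_add, hQuG, ← map_add, ← map_add, ← hxx, hQux]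
      exact eq_neg_of_add_eq_zero_left h1
    have hwx0 : w x0 = u x := by
      rw [hwx, hG1, sub_neg_eq_add, ← hxx]
    refine ⟨x0, hx0m, ?_⟩
    rw [hvw' x0 hx0m, hwx0]
    have h1 := mem_upper.1 h (Y.dim - c) (by omega)
    rw [map_sub, proj_same _ hy, sub_eq_zero] at h1
    exact h1.symm

/-- General position at all levels gives isomorphisms of all levels. -/
theorem lev_of_gp {D : X.Cycles} {E : Y.Cycles} (hdim : X.dim = Y.dim) (hD : X.IsCyc 1 D)
    (hHLX : HardLefschetz W X D) (hE : Y.IsCyc 1 E) (hHLY : HardLefschetz W Y E)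
    (h : ∀ c, 1 ≤ c → c ≤ X.dim → ∃ u ∈ KMix W X Y, GP W X Y u c) :
    ∀ c, 1 ≤ c → c ≤ X.dim → Lev W X Y c := by
  have key : ∀ r c : ℕ, c + r = X.dim → 1 ≤ c → Lev W X Y c := by
    intro r
    induction r using Nat.strong_induction_on with
    | _ r ih =>
      intro c hc hc1
      obtain ⟨u, hu, hgp⟩ := h c hc1 (by omega)
      exact step hdim hD hHLX hE hHLY (by omega)
        (fun e he1 he2 => ih (X.dim - e) (by omega) e (by omega) (by omega)) hu hgp
  exact fun c h1 h2 => key (X.dim - c) c (by omega) h1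

end Pool.Agent.N190.Opp
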