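import Pool.Agent.N190.Opp.Defs
import Pool.Agent.H914R2.KLef

/-!
# Operators of mixed degree given by algebraic correspondences
-/

open CategoryTheory AlgebraicGeometry Finset Polynomial

universe u v

namespace Pool.Agent.N190.Opp

open Pool.Agent.H914 VarClass Obj WeilCohomology

variable {k : Type u} [Field k] {𝒱 : VarClass k} {ops : CycleOps 𝒱}
  {W : WeilCohomology.{u, v} ops} {X Y Z : 𝒱.Obj}

/-- The operators of mixed degree. -/
def KMix (W : WeilCohomology.{u, v} ops) (X Y : 𝒱.Obj) : Submodule W.K (W.H X →ₗ[W.K] W.H Y) :=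
  ⨆ d : ℤ, KOp W X Y d

lemma KOp.mix {d : ℤ} {φ : W.H X →ₗ[W.K] W.H Y} (h : φ ∈ KOp W X Y d) : φ ∈ KMix W X Y :=
  Submodule.mem_iSup_of_mem d h

lemma KMix.comp {φ : W.H X →ₗ[W.K] W.H Y} {ψ : W.H Y →ₗ[W.K] W.H Z}
    (hψ : ψ ∈ KMix W Y Z) (hφ : φ ∈ KMix W X Y) : ψ ∘ₗ φ ∈ KMix W X Z := by
  refine Submodule.iSup_induction _ (motive := fun ψ => ψ ∘ₗ φ ∈ KMix W X Z) hψ ?_ ?_ ?_
  · intro e ψ hψ
    refine Submodule.iSup_induction _ (motive := fun φ => ψ ∘ₗ φ ∈ KMix W X Z) hφ ?_ ?_ ?_
    · intro d φ hφ
      exact KOp.mix (KOp.comp hψ hφ)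
    · rw [LinearMap.comp_zero]; exact Submodule.zero_mem _
    · intro a b ha hb
      rw [LinearMap.comp_add]; exact Submodule.add_mem _ ha hb
  · rw [LinearMap.zero_comp]; exact Submodule.zero_mem _
  · intro a b ha hb
    rw [LinearMap.add_comp]; exact Submodule.add_mem _ ha hb

lemma KMix.one : (1 : Module.End W.K (W.H X)) ∈ KMix W X X := KOp.mix (KOp.id X)

lemma KMix.mul {a b : Module.End W.K (W.H X)} (ha : a ∈ KMix W X X) (hb : b ∈ KMix W X X) :
    a * b ∈ KMix W X X := KMix.comp ha hb

lemma KMix.pow {a : Module.End W.K (W.H X)} (ha : a ∈ KMix W X X) (m : ℕ) :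
    a ^ m ∈ KMix W X X := by
  induction m with
  | zero => rw [pow_zero]; exact KMix.one
  | succ m ih => rw [pow_succ]; exact KMix.mul ih ha

lemma KMix.aeval {a : Module.End W.K (W.H X)} (ha : a ∈ KMix W X X) (q : W.K[X]) :
    Polynomial.aeval a q ∈ KMix W X X := by
  induction q using Polynomial.induction_on' with
  | add p q hp hq => rw [map_add]; exact Submodule.add_mem _ hp hq
  | monomial r c =>
    rw [aeval_monomial, Algebra.algebraMap_eq_smul_one, smul_mul_assoc, one_mul]
    exact Submodule.smul_mem _ _ (KMix.pow ha r)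

lemma kop_aeval {a : Module.End W.K (W.H X)} (ha : a ∈ KOp W X X 0) (q : W.K[X]) :
    Polynomial.aeval a q ∈ KOp W X X 0 :=
  mem_KS_iff.1 ((rop_opAlg (W := W) (X := X)).kspan_aeval (mem_KS_iff.2 ha) q)

/-- The homogeneous components of an operator of mixed degree are algebraic. -/
lemma KMix.exists_component {u : W.H X →ₗ[W.K] W.H Y} (hu : u ∈ KMix W X Y) (d : ℤ) :
    ∃ v ∈ KOp W X Y d, ∀ i j : ℕ, (j : ℤ) = i + 2 * d → ∀ x ∈ W.gr X i,
      v x = proj (W.isInternal Y) j (u x) := by
  refine Submodule.iSup_induction _ (motive := fun u => ∃ v ∈ KOp W X Y d, ∀ i j : ℕ,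
    (j : ℤ) = i + 2 * d → ∀ x ∈ W.gr X i, v x = proj (W.isInternal Y) j (u x)) hu ?_ ?_ ?_
  · intro e u hu
    by_cases hde : e = d
    · subst hde
      refine ⟨u, hu, fun i j hij x hx => ?_⟩
      have h1 := KOp.isHom hu i x (by rw [grZ_natCast]; exact hx)
      rw [← hij, grZ_natCast] at h1
      rw [proj_same _ h1]
    · refine ⟨0, Submodule.zero_mem _, fun i j hij x hx => ?_⟩
      have h1 := KOp.isHom hu i x (by rw [grZ_natCast]; exact hx)
      rw [LinearMap.zero_apply]
      by_cases h0 : 0 ≤ (i : ℤ) + 2 * e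
      · obtain ⟨l, hl⟩ := Int.eq_ofNat_of_zero_le h0
        rw [hl] at h1
        have h2 : u x ∈ W.gr Y l := by
          have := h1
          rwa [grZ_natCast] at this
        rw [proj_ne _ h2 (by omega)]
      · rw [grZ_of_neg (by omega)] at h1
        rw [(Submodule.mem_bot _).1 h1, map_zero]
  · exact ⟨0, Submodule.zero_mem _, fun i j _ x _ => by simp⟩
  · rintro a b ⟨v, hv, h1⟩ ⟨w, hw, h2⟩
    exact ⟨v + w, Submodule.add_mem _ hv hw, fun i j hij x hx => by
      rw [LinearMap.add_apply, LinearMap.add_apply, map_add, h1 i j hij x hx, h2 i j hij x hx]⟩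

lemma corr_mix {γ : W.H (X.prod Y)} (hγ : γ ∈ mixedCycles W (X.prod Y)) :
    W.corr γ ∈ KMix W X Y := by
  refine Submodule.iSup_induction _ (motive := fun γ => W.corr γ ∈ KMix W X Y) hγ ?_ ?_ ?_
  · intro p γ hγ
    apply KOp.mix (d := p - X.dim)
    rw [mem_KOp_iff]
    exact ⟨γ, by rwa [show (X.dim : ℤ) + ((p : ℤ) - X.dim) = p by ring], rfl⟩
  · rw [corr_zero]; exact Submodule.zero_mem _
  · intro a b ha hb
    rw [corr_add]; exact Submodule.add_mem _ ha hb

/-- Membership in the filtration by the degree. -/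
lemma mem_upper {i : ℕ} {x : W.H X} :
    x ∈ upper W X i ↔ ∀ j < i, proj (W.isInternal X) j x = 0 := by
  constructor
  · intro hx j hj
    refine Submodule.iSup_induction _
      (motive := fun x => proj (W.isInternal X) j x = 0) hx ?_ ?_ ?_
    · intro l x hx
      exact proj_ne _ hx (by have := l.2; omega)
    · rw [map_zero]
    · intro a b ha hb
      rw [map_add, ha, hb, add_zero]
  · intro h
    have hsum := sum_proj (W.isInternal X) (N := 2 * X.dim + 1)
      (fun i hi => W.gr_eq_bot X i (by omega))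
    have h2 := congrArg (fun F => F x) hsum
    simp only [LinearMap.sum_apply, Module.End.one_apply] at h2
    rw [← h2]
    apply Submodule.sum_mem
    intro j _
    by_cases hj : j < i
    · rw [h j hj]; exact Submodule.zero_mem _
    · exact Submodule.mem_iSup_of_mem (⟨j, by omega⟩ : {j : ℕ // i ≤ j}) (proj_mem _ j x)

lemma upper_mono {i j : ℕ} (hij : i ≤ j) : upper W X j ≤ upper W X i := by
  intro x hx
  rw [mem_upper] at hx ⊢
  exact fun l hl => hx l (by omega)

lemma gr_le_upper {i j : ℕ} (hij : i ≤ j) : W.gr X j ≤ upper W X i :=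
  fun x hx => Submodule.mem_iSup_of_mem (⟨j, hij⟩ : {j : ℕ // i ≤ j}) hx

/-- The projector onto `H^(≥ i)`. -/
noncomputable def pup (W : WeilCohomology.{u, v} ops) (X : 𝒱.Obj) (i : ℕ) :
    Module.End W.K (W.H X) := scal (W.isInternal X) (fun j => if i ≤ j then 1 else 0)

/-- The projector onto `H^(< i)`. -/
noncomputable def plow (W : WeilCohomology.{u, v} ops) (X : 𝒱.Obj) (i : ℕ) :
    Module.End W.K (W.H X) := scal (W.isInternal X) (fun j => if j < i then 1 else 0)

lemma pup_add_plow (i : ℕ) (x : W.H X) : pup W X i x + plow W X i x = x := by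
  have h : pup W X i + plow W X i = 1 := by
    rw [pup, plow, scal_add, ← scal_one (W.isInternal X)]
    congr 1
    funext j
    by_cases hj : i ≤ j
    · rw [if_pos hj, if_neg (by omega), add_zero]
    · rw [if_neg hj, if_pos (by omega), zero_add]
  have := congrArg (fun F => F x) h
  simpa using this

lemma proj_pup {i j : ℕ} (x : W.H X) : proj (W.isInternal X) j (pup W X i x) =
    if i ≤ j then proj (W.isInternal X) j x else 0 := by
  have h : proj (W.isInternal X) j * pup W X i =
      if i ≤ j then proj (W.isInternal X) j else 0 := by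
    apply gr_ext (W.isInternal X)
    intro l a ha
    rw [Module.End.mul_apply, pup, scal_apply _ _ ha, map_smul]
    by_cases hlj : l = j
    · subst hlj
      split_ifs <;> simp [proj_same _ ha]
    · rw [proj_ne _ ha hlj, smul_zero]
      split_ifs
      · rw [proj_ne _ ha hlj]
      · rfl
  have := congrArg (fun F => F x) h
  simp only [Module.End.mul_apply] at this
  rw [this]
  split_ifs <;> rfl

lemma proj_plow {i j : ℕ} (x : W.H X) : proj (W.isInternal X) j (plow W X i x) =
    if j < i then proj (W.isInternal X) j x else 0 := by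
  have h : proj (W.isInternal X) j * plow W X i =
      if j < i then proj (W.isInternal X) j else 0 := by
    apply gr_ext (W.isInternal X)
    intro l a ha
    rw [Module.End.mul_apply, plow, scal_apply _ _ ha, map_smul]
    by_cases hlj : l = j
    · subst hlj
      split_ifs <;> simp [proj_same _ ha]
    · rw [proj_ne _ ha hlj, smul_zero]
      split_ifs
      · rw [proj_ne _ ha hlj]
      · rfl
  have := congrArg (fun F => F x) h
  simp only [Module.End.mul_apply] at this
  rw [this]
  split_ifs <;> rfl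

lemma pup_mem (i : ℕ) (x : W.H X) : pup W X i x ∈ upper W X i := by
  rw [mem_upper]
  intro j hj
  rw [proj_pup, if_neg (by omega)]

/-- An element all of whose components vanish is zero. -/
lemma eq_zero_of_proj {x : W.H X} (h : ∀ j, proj (W.isInternal X) j x = 0) : x = 0 := by
  have hsum := sum_proj (W.isInternal X) (N := 2 * X.dim + 1)
    (fun i hi => W.gr_eq_bot X i (by omega))
  have h2 := congrArg (fun F => F x) hsum
  simp only [LinearMap.sum_apply, Module.End.one_apply, h, Finset.sum_const_zero] at h2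
  exact h2.symm

lemma eq_of_proj {x y : W.H X} (h : ∀ j, proj (W.isInternal X) j x =
    proj (W.isInternal X) j y) : x = y := by
  rw [← sub_eq_zero]
  apply eq_zero_of_proj
  intro j
  rw [map_sub, h, sub_self]

lemma pup_of_mem {i : ℕ} {x : W.H X} (hx : x ∈ upper W X i) : pup W X i x = x := by
  apply eq_of_proj
  intro j
  rw [proj_pup]
  split_ifs with h
  · rfl
  · exact (mem_upper.1 hx j (by omega)).symm

lemma plow_eq_zero {i : ℕ} {x : W.H X} : plow W X i x = 0 ↔ x ∈ upper W X i := by
  constructor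
  · intro h
    rw [← pup_add_plow i x, h, add_zero]
    exact pup_mem i x
  · intro h
    have := pup_add_plow i x
    rw [pup_of_mem h] at this
    simpa using this

lemma plow_plow (i : ℕ) (x : W.H X) : plow W X i (plow W X i x) = plow W X i x := by
  apply eq_of_proj
  intro j
  rw [proj_plow, proj_plow]
  split_ifs <;> rfl

lemma plow_gr {i j : ℕ} (hij : i ≤ j) {x : W.H X} (hx : x ∈ W.gr X j) : plow W X i x = 0 :=
  plow_eq_zero.2 (gr_le_upper hij hx)

lemma plow_gr_lt {i j : ℕ} (hij : j < i) {x : W.H X} (hx : x ∈ W.gr X j) :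
    plow W X i x = x := by
  rw [plow, scal_apply _ _ hx, if_pos hij, one_smul]

lemma pup_gr_lt {i j : ℕ} (hij : j < i) {x : W.H X} (hx : x ∈ W.gr X j) :
    pup W X i x = 0 := by
  rw [pup, scal_apply _ _ hx, if_neg (by omega), zero_smul]

lemma pup_eq_zero {i : ℕ} {x : W.H X} : pup W X i x = 0 ↔ plow W X i x = x := by
  have := pup_add_plow i x
  constructor
  · intro h; rw [h, zero_add] at this; exact this
  · intro h
    rw [h] at this
    simpa using this

end Pool.Agent.N190.Opp
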