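import Pool.Agent.N190.Opp.Mix
import Pool.Agent.W498.Dom.Gen

/-!
# The induction step
-/

open CategoryTheory AlgebraicGeometry Finset Polynomial

universe u v

namespace Pool.Agent.N190.Opp

open Pool.Agent.H914 VarClass Obj WeilCohomology Pool.Agent.W498.Dom

variable {k : Type u} [Field k] {𝒱 : VarClass k} {ops : CycleOps 𝒱}
  {W : WeilCohomology.{u, v} ops} {X Y Z : 𝒱.Obj}

/-- Some combination of algebraic correspondences maps `H^(n + c)(X)` bijectively to
`H^(n - c)(Y)`. -/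
def Lev (W : WeilCohomology.{u, v} ops) (X Y : 𝒱.Obj) (c : ℕ) : Prop :=
  ∃ S ∈ KOp W X Y (-(c : ℤ)), (∀ a ∈ W.gr X (X.dim + c), S a = 0 → a = 0) ∧
    ∀ b ∈ W.gr Y (Y.dim - c), ∃ a ∈ W.gr X (X.dim + c), S a = b

/-- Injective combinations of algebraic correspondences. -/
def InjC (W : WeilCohomology.{u, v} ops) (X : 𝒱.Obj) (c : ℕ) : Prop :=
  ∃ ν ∈ KOp W X X (-(c : ℤ)), ∀ a ∈ W.gr X (X.dim + c), ν a = 0 → a = 0

lemma kop_mem {d : ℤ} {φ : W.H X →ₗ[W.K] W.H Y} (hφ : φ ∈ KOp W X Y d) {i j : ℕ}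
    {a : W.H X} (ha : a ∈ W.gr X i) (hij : (j : ℤ) = i + 2 * d) : φ a ∈ W.gr Y j := by
  have h := KOp.isHom hφ i a (by rw [grZ_natCast]; exact ha)
  rwa [← hij, grZ_natCast] at h

lemma kop_L {D : X.Cycles} (hD : X.IsCyc 1 D) :
    LinearMap.mulLeft W.K (W.cl X D) ∈ KOp W X X 1 :=
  mem_KS_iff.1 (Submodule.subset_span (rop_mulLeft hD))

lemma kop_pow {d : ℤ} {T : Module.End W.K (W.H Y)} (hT : T ∈ KOp W Y Y d) (j : ℕ) :
    T ^ j ∈ KOp W Y Y (j * d) :=
  mem_KS_iff.1 ((rop_opAlg (W := W) (X := Y)).kspan.pow (mem_KS_iff.2 hT) j)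

/-- The powers of the Lefschetz operator. -/
lemma kop_Lpow {D : X.Cycles} (hD : X.IsCyc 1 D) (c : ℕ) :
    LinearMap.mulLeft W.K (W.cl X D) ^ c ∈ KOp W X X c :=
  KOp.cast (kop_pow (kop_L hD) c) (by ring)

lemma Lpow_mem {D : X.Cycles} (hD : X.IsCyc 1 D) {c i j : ℕ} (hij : j = i + 2 * c) {a : W.H X}
    (ha : a ∈ W.gr X i) : (LinearMap.mulLeft W.K (W.cl X D) ^ c) a ∈ W.gr X j :=
  kop_mem (kop_Lpow hD c) ha (by push_cast [hij]; ring)

lemma Lpow_inj {D : X.Cycles} (hHL : HardLefschetz W X D) {c : ℕ} (hc : c ≤ X.dim) {a : W.H X}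
    (ha : a ∈ W.gr X (X.dim - c)) (h0 : (LinearMap.mulLeft W.K (W.cl X D) ^ c) a = 0) :
    a = 0 := by
  apply (hHL (X.dim - c) (by omega)).1 a ha
  rwa [show X.dim - (X.dim - c) = c by omega]

lemma Lpow_surj {D : X.Cycles} (hHL : HardLefschetz W X D) {c : ℕ} (hc : c ≤ X.dim) {b : W.H X}
    (hb : b ∈ W.gr X (X.dim + c)) :
    ∃ a ∈ W.gr X (X.dim - c), (LinearMap.mulLeft W.K (W.cl X D) ^ c) a = b := by
  obtain ⟨a, ha, h⟩ := (hHL (X.dim - c) (by omega)).2 b
    (by rwa [show 2 * X.dim - (X.dim - c) = X.dim + c by omega])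
  rw [show X.dim - (X.dim - c) = c by omega] at h
  exact ⟨a, ha, h⟩

/-- The adjoint of a surjection is injective. -/
lemma exists_adj (hdim : X.dim = Y.dim) {c : ℕ} (hc : c ≤ X.dim) {S : W.H X →ₗ[W.K] W.H Y}
    (hS : S ∈ KOp W X Y (-(c : ℤ)))
    (hsurj : ∀ b ∈ W.gr Y (Y.dim - c), ∃ a ∈ W.gr X (X.dim + c), S a = b) :
    ∃ T ∈ KOp W Y X (-(c : ℤ)), ∀ b ∈ W.gr Y (Y.dim + c), T b = 0 → b = 0 := by
  obtain ⟨T, hT, hadj⟩ := KOp.exists_adjoint hS
  refine ⟨T, KOp.cast hT (by rw [hdim]; ring), fun b hb h0 => ?_⟩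
  apply nondeg_right
  intro y
  refine gr_induction (W.isInternal Y) (p := fun y => W.tr Y (y * b) = 0) ?_ ?_ y
  · intro l y hy
    by_cases hl : l = Y.dim - c
    · subst hl
      obtain ⟨a, -, rfl⟩ := hsurj y hy
      rw [hadj, h0, mul_zero, map_zero]
    · exact W.tr_eq_zero (W.mul_mem hy hb) (by omega)
  · intro y y' hy hy'
    rw [add_mul, map_add, hy, hy', add_zero]

lemma Lev.injX (hdim : X.dim = Y.dim) {E : Y.Cycles} (hE : Y.IsCyc 1 E)
    (hHL : HardLefschetz W Y E) {c : ℕ} (hc : c ≤ X.dim) (h : Lev W X Y c) : InjC W X c := by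
  obtain ⟨S, hS, hinj, hsurj⟩ := h
  obtain ⟨T, hT, hT0⟩ := exists_adj hdim hc hS hsurj
  refine ⟨T ∘ₗ (LinearMap.mulLeft W.K (W.cl Y E) ^ c : Module.End W.K (W.H Y)) ∘ₗ S,
    KOp.cast (KOp.comp hT (KOp.comp (kop_Lpow hE c) hS)) (by ring), fun a ha h0 => ?_⟩
  have h1 : S a ∈ W.gr Y (Y.dim - c) := kop_mem hS ha (by omega)
  have h2 := hT0 _ (Lpow_mem hE (by omega) h1) h0
  exact hinj a ha (Lpow_inj hHL (by omega) h1 h2)

lemma Lev.injY (hdim : X.dim = Y.dim) {D : X.Cycles} (hD : X.IsCyc 1 D)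
    (hHL : HardLefschetz W X D) {c : ℕ} (hc : c ≤ X.dim) (h : Lev W X Y c) : InjC W Y c := by
  obtain ⟨S, hS, hinj, hsurj⟩ := h
  obtain ⟨T, hT, hT0⟩ := exists_adj hdim hc hS hsurj
  refine ⟨S ∘ₗ (LinearMap.mulLeft W.K (W.cl X D) ^ c : Module.End W.K (W.H X)) ∘ₗ T,
    KOp.cast (KOp.comp hS (KOp.comp (kop_Lpow hD c) hT)) (by ring), fun a ha h0 => ?_⟩
  have h1 : T a ∈ W.gr X (X.dim - c) := kop_mem hT ha (by omega)
  have h2 := hinj _ (Lpow_mem hD (by omega) h1) h0
  exact hT0 a ha (Lpow_inj hHL hc h1 h2)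

/-- The projector onto `H^j` is a combination of algebraic correspondences. -/
def HP (W : WeilCohomology.{u, v} ops) (X : 𝒱.Obj) (j : ℕ) : Prop :=
  proj (W.isInternal X) j ∈ KOp W X X 0

lemma scal_mem {f : ℕ → W.K} (h : ∀ j, f j ≠ 0 → HP W X j) :
    scal (W.isInternal X) f ∈ KOp W X X 0 := by
  rw [scal_eq_sum (W.isInternal X) (N := 2 * X.dim + 1)
    (fun i hi => W.gr_eq_bot X i (by omega))]
  apply Submodule.sum_mem
  intro j _
  by_cases hj : f j = 0
  · rw [hj, zero_smul]; exact Submodule.zero_mem _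
  · exact Submodule.smul_mem _ _ (h j hj)

/-- The next pair of projectors. -/
lemma step_proj {D : X.Cycles} (hD : X.IsCyc 1 D) (hHL : HardLefschetz W X D) {c : ℕ}
    (hc : c ≤ X.dim) (hI : InjC W X c)
    (hP : ∀ j, (X.dim + c < j ∨ j + c < X.dim) → HP W X j) :
    HP W X (X.dim - c) ∧ HP W X (X.dim + c) := by
  obtain ⟨S, hS, hinj⟩ := hI
  -- kill the upper degrees
  have hplow : plow W X (X.dim + c + 1) ∈ KOp W X X 0 := by
    have h1 : plow W X (X.dim + c + 1) = LinearMap.id - pup W X (X.dim + c + 1) := by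
      apply LinearMap.ext
      intro x
      rw [LinearMap.sub_apply, LinearMap.id_apply]
      exact eq_sub_of_add_eq' (pup_add_plow _ x)
    rw [h1]
    refine Submodule.sub_mem _ (KOp.id X) (scal_mem fun j hj => hP j (Or.inl ?_))
    by_contra h
    exact hj (if_neg (by omega))
  have hpup : pup W X (X.dim - c) ∈ KOp W X X 0 := by
    have h1 : pup W X (X.dim - c) = LinearMap.id - plow W X (X.dim - c) := by
      apply LinearMap.ext
      intro x
      rw [LinearMap.sub_apply, LinearMap.id_apply]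
      exact eq_sub_of_add_eq (pup_add_plow _ x)
    rw [h1]
    refine Submodule.sub_mem _ (KOp.id X) (scal_mem fun j hj => hP j (Or.inr ?_))
    by_contra h
    exact hj (if_neg (by omega))
  set S' : Module.End W.K (W.H X) := S ∘ₗ plow W X (X.dim + c + 1) with hS'
  have hS'k : S' ∈ KOp W X X (-(c : ℤ)) := KOp.cast (KOp.comp hS hplow) (by ring)
  set M : Module.End W.K (W.H X) :=
    S' ∘ₗ (LinearMap.mulLeft W.K (W.cl X D) ^ c : Module.End W.K (W.H X)) ∘ₗ
      pup W X (X.dim - c) with hM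
  have hMk : M ∈ KOp W X X 0 :=
    KOp.cast (KOp.comp hS'k (KOp.comp (kop_Lpow hD c) hpup)) (by ring)
  have hS'up : ∀ j, X.dim + c < j → ∀ a ∈ W.gr X j, S' a = 0 := by
    intro j hj a ha
    rw [hS', LinearMap.comp_apply, plow_gr (by omega) ha, map_zero]
  have hS'eq : ∀ j, j ≤ X.dim + c → ∀ a ∈ W.gr X j, S' a = S a := by
    intro j hj a ha
    rw [hS', LinearMap.comp_apply, plow_gr_lt (by omega) ha]
  have hMap : ∀ a, M a = S' ((LinearMap.mulLeft W.K (W.cl X D) ^ c : Module.End W.K (W.H X))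
      (pup W X (X.dim - c) a)) := fun a => rfl
  have hMeq : ∀ a ∈ W.gr X (X.dim - c),
      M a = S ((LinearMap.mulLeft W.K (W.cl X D) ^ c : Module.End W.K (W.H X)) a) := by
    intro a ha
    rw [hMap, pup_of_mem (gr_le_upper le_rfl ha)]
    exact hS'eq (X.dim + c) le_rfl _ (Lpow_mem hD (by omega) ha)
  have hM0 : ∀ j, j ≠ X.dim - c → ∀ a ∈ W.gr X j, M a = 0 := by
    intro j hj a ha
    rw [hMap]
    rcases lt_or_gt_of_ne hj with h | h
    · rw [pup_gr_lt h ha, map_zero, map_zero]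
    · rw [pup_of_mem (gr_le_upper (i := X.dim - c) (by omega) ha)]
      exact hS'up (j + 2 * c) (by omega) _ (Lpow_mem hD rfl ha)
  obtain ⟨q, hq⟩ := exists_inv_on (E := M) (S := W.gr X (X.dim - c))
    (by
      intro x hx
      rw [hMeq x hx]
      exact kop_mem hS (Lpow_mem hD (j := X.dim + c) (by omega) hx) (by omega))
    (by
      intro x hx h0
      rw [hMeq x hx] at h0
      exact Lpow_inj hHL hc hx (hinj _ (Lpow_mem hD (by omega) hx) h0))
  have e1 : proj (W.isInternal X) (X.dim - c) = aeval M q ∘ₗ M := by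
    apply gr_ext (W.isInternal X)
    intro j a ha
    rw [LinearMap.comp_apply]
    by_cases hj : j = X.dim - c
    · subst hj
      rw [proj_same _ ha, hq a ha]
    · rw [proj_ne _ ha hj, hM0 j hj a ha, map_zero]
  have h1 : HP W X (X.dim - c) := by
    rw [HP, e1]
    exact KOp.cast (KOp.comp (kop_aeval hMk q) hMk) (by ring)
  refine ⟨h1, ?_⟩
  have e2 : proj (W.isInternal X) (X.dim + c) =
      (LinearMap.mulLeft W.K (W.cl X D) ^ c : Module.End W.K (W.H X)) ∘ₗ aeval M q ∘ₗ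
        proj (W.isInternal X) (X.dim - c) ∘ₗ S' := by
    apply gr_ext (W.isInternal X)
    intro j a ha
    simp only [LinearMap.comp_apply]
    by_cases hj : j = X.dim + c
    · subst hj
      obtain ⟨b, hb, rfl⟩ := Lpow_surj hHL hc ha
      have h2 : S' ((LinearMap.mulLeft W.K (W.cl X D) ^ c) b) = M b := by
        rw [hMeq b hb, hS'eq (X.dim + c) le_rfl _ ha]
      have h3 : M b ∈ W.gr X (X.dim - c) := by
        rw [hMeq b hb]
        exact kop_mem hS (Lpow_mem hD (j := X.dim + c) (by omega) hb) (by omega)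
      rw [proj_same _ ha, h2, proj_same _ h3, hq b hb]
    · rw [proj_ne _ ha hj]
      rcases lt_or_gt_of_ne hj with h | h
      · rw [hS'eq j (by omega) a ha]
        have h2 := KOp.isHom hS j a (by rw [grZ_natCast]; exact ha)
        by_cases h0 : 0 ≤ (j : ℤ) + 2 * -(c : ℤ)
        · obtain ⟨l, hl⟩ := Int.eq_ofNat_of_zero_le h0
          rw [hl] at h2
          have h3 : S a ∈ W.gr X l := by
            have := h2
            rwa [grZ_natCast] at this
          rw [proj_ne _ h3 (by omega), map_zero, map_zero]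
        · rw [grZ_of_neg (by omega)] at h2
          rw [(Submodule.mem_bot _).1 h2, map_zero, map_zero, map_zero]
      · rw [hS'up j h a ha, map_zero, map_zero, map_zero]
  rw [HP, e2]
  exact KOp.cast (KOp.comp (kop_Lpow hD c) (KOp.comp (kop_aeval hMk q) (KOp.comp h1 hS'k)))
    (by ring)

lemma hp_big {j : ℕ} (hj : 2 * X.dim < j) : HP W X j := by
  have : proj (W.isInternal X) j = 0 := by
    apply gr_ext (W.isInternal X)
    intro i a ha
    rw [LinearMap.zero_apply]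
    by_cases hij : i = j
    · subst hij
      rw [W.gr_eq_bot X i hj] at ha
      rw [(Submodule.mem_bot _).1 ha, map_zero]
    · exact proj_ne _ ha hij
  rw [HP, this]
  exact Submodule.zero_mem _

/-- The projectors in the outer degrees. -/
lemma all_proj {D : X.Cycles} (hD : X.IsCyc 1 D) (hHL : HardLefschetz W X D) {c : ℕ}
    (hI : ∀ e, c < e → e ≤ X.dim → InjC W X e) :
    ∀ j, (X.dim + c < j ∨ j + c < X.dim) → HP W X j := by
  have key : ∀ r m : ℕ, m + r = X.dim → c ≤ m →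
      ∀ j, (X.dim + m < j ∨ j + m < X.dim) → HP W X j := by
    intro r
    induction r with
    | zero =>
      intro m hm _ j hj
      exact hp_big (by omega)
    | succ r ih =>
      intro m hm hcm j hj
      have h1 := ih (m + 1) (by omega) (by omega)
      have h2 := step_proj hD hHL (c := m + 1) (by omega) (hI (m + 1) (by omega) (by omega)) h1
      by_cases e1 : j = X.dim + (m + 1)
      · rw [e1]; exact h2.2
      · by_cases e2 : j = X.dim - (m + 1)
        · rw [e2]; exact h2.1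
        · exact h1 j (by omega)
  by_cases hc : c ≤ X.dim
  · exact key (X.dim - c) c (by omega) le_rfl
  · intro j hj
    exact hp_big (by omega)

/-- Block sums. -/
lemma block_proj {s : Finset ℕ} {a b : ℕ → ℕ} (hb : Set.InjOn b s)
    {T : ℕ → W.H X →ₗ[W.K] W.H Y} (hT : ∀ i ∈ s, ∀ x ∈ W.gr X (a i), T i x ∈ W.gr Y (b i))
    (x : W.H X) {i : ℕ} (hi : i ∈ s) :
    proj (W.isInternal Y) (b i) ((∑ j ∈ s, T j ∘ₗ proj (W.isInternal X) (a j)) x) =
      T i (proj (W.isInternal X) (a i) x) := by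
  rw [LinearMap.sum_apply, map_sum, Finset.sum_eq_single i]
  · rw [LinearMap.comp_apply, proj_same _ (hT i hi _ (proj_mem _ _ x))]
  · intro j hj hji
    rw [LinearMap.comp_apply, proj_ne _ (hT j hj _ (proj_mem _ _ x))
      (fun h => hji (hb hj hi h))]
  · intro h; exact absurd hi h

lemma block_proj' {s : Finset ℕ} {a b : ℕ → ℕ}
    {T : ℕ → W.H X →ₗ[W.K] W.H Y} (hT : ∀ i ∈ s, ∀ x ∈ W.gr X (a i), T i x ∈ W.gr Y (b i))
    (x : W.H X) {l : ℕ} (hl : ∀ i ∈ s, b i ≠ l) :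
    proj (W.isInternal Y) l ((∑ j ∈ s, T j ∘ₗ proj (W.isInternal X) (a j)) x) = 0 := by
  rw [LinearMap.sum_apply, map_sum]
  apply Finset.sum_eq_zero
  intro j hj
  rw [LinearMap.comp_apply, proj_ne _ (hT j hj _ (proj_mem _ _ x)) (hl j hj)]

end Pool.Agent.N190.Opp
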